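import Mathlib
import Pool.Agent.R579.DrazinDefs

set_option autoImplicit false

open scoped ENNReal

namespace Pool.Agent.Results.MP_632fda_an.Q1False

open Pool.Agent.R579.Drazin Submodule

/-- the Hilbert space `ℓ²(ℕ × ℕ)` -/
abbrev L2 : Type := lp (fun _ : ℕ × ℕ => ℂ) 2

section wop

variable (σ : ℕ × ℕ → ℕ × ℕ) (c : ℕ × ℕ → ℂ)

lemma sum_le (hc : ∀ k, ‖c k‖ ≤ 1) (hσ : ∀ k l, c k ≠ 0 → c l ≠ 0 → σ k = σ l → k = l)
    (x : L2) (s : Finset (ℕ × ℕ)) :
    ∑ k ∈ s, ‖c k * x (σ k)‖ ^ (2 : ℝ≥0∞).toReal ≤ ‖x‖ ^ (2 : ℝ≥0∞).toReal := by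
  classical
  have h2 : (2 : ℝ≥0∞).toReal = 2 := by norm_num
  have h0 : 0 < (2 : ℝ≥0∞).toReal := by rw [h2]; norm_num
  calc ∑ k ∈ s, ‖c k * x (σ k)‖ ^ (2 : ℝ≥0∞).toReal
      = ∑ k ∈ s.filter (fun k => c k ≠ 0), ‖c k * x (σ k)‖ ^ (2 : ℝ≥0∞).toReal := by
        rw [Finset.sum_filter]
        apply Finset.sum_congr rfl
        intro k _
        split_ifs with h
        · rfl
        · rw [not_not] at h
          rw [h, zero_mul, norm_zero, Real.zero_rpow h0.ne']
    _ ≤ ∑ k ∈ s.filter (fun k => c k ≠ 0), ‖x (σ k)‖ ^ (2 : ℝ≥0∞).toReal := by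
        apply Finset.sum_le_sum
        intro k _
        apply Real.rpow_le_rpow (norm_nonneg _) _ h0.le
        rw [norm_mul]
        exact mul_le_of_le_one_left (norm_nonneg _) (hc k)
    _ = ∑ k ∈ (s.filter (fun k => c k ≠ 0)).image σ, ‖x k‖ ^ (2 : ℝ≥0∞).toReal := by
        rw [Finset.sum_image]
        intro k hk l hl h
        rw [Finset.mem_coe, Finset.mem_filter] at hk hl
        exact hσ k l hk.2 hl.2 h
    _ ≤ ‖x‖ ^ (2 : ℝ≥0∞).toReal := lp.sum_rpow_le_norm_rpow h0 x _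

/-- weighted composition operator -/
noncomputable def wop (hc : ∀ k, ‖c k‖ ≤ 1)
    (hσ : ∀ k l, c k ≠ 0 → c l ≠ 0 → σ k = σ l → k = l) : L2 →L[ℂ] L2 :=
  LinearMap.mkContinuous
    { toFun := fun x => ⟨fun k => c k * x (σ k), memℓp_gen' (sum_le σ c hc hσ x)⟩
      map_add' := by
        intro x y
        ext k
        show c k * (x + y) (σ k) = c k * x (σ k) + c k * y (σ k)
        rw [lp.coeFn_add, Pi.add_apply, mul_add]
      map_smul' := by
        intro a x
        ext k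
        show c k * (a • x) (σ k) = a * (c k * x (σ k))
        rw [lp.coeFn_smul, Pi.smul_apply, smul_eq_mul]
        ring } 1 (by
      intro x
      rw [one_mul]
      apply lp.norm_le_of_forall_sum_le (by norm_num) (norm_nonneg _)
      exact sum_le σ c hc hσ x)

variable {σ c}

lemma wop_apply (hc : ∀ k, ‖c k‖ ≤ 1)
    (hσ : ∀ k l, c k ≠ 0 → c l ≠ 0 → σ k = σ l → k = l) (x : L2) (k : ℕ × ℕ) :
    wop σ c hc hσ x k = c k * x (σ k) := rfl

end wop

/-- the shift `(i, j) ↦ (i + 1, j)` with infinite multiplicity -/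
noncomputable def AA : L2 →L[ℂ] L2 :=
  wop (fun k => (k.1 - 1, k.2)) (fun k => if k.1 = 0 then 0 else 1)
    (by intro k; split_ifs <;> simp)
    (by
      rintro ⟨i, j⟩ ⟨i', j'⟩ h h' he
      simp only [ne_eq, ite_eq_left_iff, not_forall] at h h'
      obtain ⟨h, -⟩ := h
      obtain ⟨h', -⟩ := h'
      simp only [Prod.mk.injEq] at he ⊢
      change ¬ i = 0 at h
      change ¬ i' = 0 at h'
      omega)

/-- the weights -/
noncomputable def wt (k : ℕ × ℕ) : ℂ := if k.1 = 0 then ((1 / 4 : ℝ) ^ k.2 : ℝ) else 1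

lemma wt_le (k : ℕ × ℕ) : ‖wt k‖ ≤ 1 := by
  unfold wt
  split_ifs
  · rw [Complex.norm_real, Real.norm_eq_abs, abs_of_nonneg (by positivity)]
    exact pow_le_one₀ (by norm_num) (by norm_num)
  · simp

lemma wt_ne (k : ℕ × ℕ) : wt k ≠ 0 := by
  unfold wt
  split_ifs
  · rw [Complex.ofReal_ne_zero]
    positivity
  · exact one_ne_zero

/-- the weighted backward shift with infinite multiplicity -/
noncomputable def BB : L2 →L[ℂ] L2 :=
  wop (fun k => (k.1 + 1, k.2)) wt wt_le (by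
    rintro ⟨i, j⟩ ⟨i', j'⟩ - - he
    simp only [Prod.mk.injEq] at he ⊢
    omega)

/-- the unweighted backward shift with infinite multiplicity -/
noncomputable def BU : L2 →L[ℂ] L2 :=
  wop (fun k => (k.1 + 1, k.2)) (fun _ => 1) (by simp) (by
    rintro ⟨i, j⟩ ⟨i', j'⟩ - - he
    simp only [Prod.mk.injEq] at he ⊢
    omega)

/-- the projection on the row `i = 0` -/
noncomputable def CC : L2 →L[ℂ] L2 :=
  wop id (fun k => if k.1 = 0 then 1 else 0) (by intro k; split_ifs <;> simp)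
    (by intro k l _ _ h; exact h)

/-- multiplication by the weights -/
noncomputable def DD : L2 →L[ℂ] L2 := wop id wt wt_le (by intro k l _ _ h; exact h)

lemma AA_zero (x : L2) (j : ℕ) : AA x (0, j) = 0 := by
  rw [AA, wop_apply]; simp

lemma AA_succ (x : L2) (i j : ℕ) : AA x (i + 1, j) = x (i, j) := by
  rw [AA, wop_apply]; simp

lemma BB_apply (x : L2) (k : ℕ × ℕ) : BB x k = wt k * x (k.1 + 1, k.2) := rfl

lemma BU_apply (x : L2) (k : ℕ × ℕ) : BU x k = x (k.1 + 1, k.2) := by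
  rw [BU, wop_apply, one_mul]

lemma CC_apply (x : L2) (k : ℕ × ℕ) : CC x k = if k.1 = 0 then x k else 0 := by
  rw [CC, wop_apply]
  split_ifs <;> simp

lemma DD_apply (x : L2) (k : ℕ × ℕ) : DD x k = wt k * x k := rfl

/-- vectors supported on the row `i = 0` -/
def Row0 : Submodule ℂ L2 where
  carrier := {x | ∀ i j, x (i + 1, j) = 0}
  zero_mem' := by intro i j; rfl
  add_mem' := by
    intro x y hx hy i j
    rw [lp.coeFn_add, Pi.add_apply, hx, hy, add_zero]
  smul_mem' := by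
    intro a x hx i j
    rw [lp.coeFn_smul, Pi.smul_apply, hx, smul_zero]

lemma mem_Row0 {x : L2} : x ∈ Row0 ↔ ∀ i j, x (i + 1, j) = 0 := Iff.rfl

/-- evaluation -/
noncomputable def ev (k : ℕ × ℕ) : L2 →L[ℂ] ℂ :=
  LinearMap.mkContinuous
    { toFun := fun x => x k
      map_add' := by intro x y; rw [lp.coeFn_add, Pi.add_apply]
      map_smul' := by intro a x; rw [lp.coeFn_smul, Pi.smul_apply]; rfl } 1 (by
      intro x
      rw [one_mul]
      exact lp.norm_apply_le_norm (by norm_num) x k)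

lemma ev_apply (k : ℕ × ℕ) (x : L2) : ev k x = x k := rfl

lemma Row0_closed : IsClosed (Row0 : Set L2) := by
  have : (Row0 : Set L2) = ⋂ i, ⋂ j, {x | ev (i + 1, j) x = 0} := by
    ext x
    simp only [Set.mem_iInter, Set.mem_ofPred_eq]
    exact Iff.rfl
  rw [this]
  exact isClosed_iInter fun i => isClosed_iInter fun j =>
    isClosed_eq (ev (i + 1, j)).continuous continuous_const

/-! the powers of `A` -/

lemma AA_inj {x : L2} (h : AA x = 0) : x = 0 := by
  ext ⟨i, j⟩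
  rw [← AA_succ x i j, h]
  rfl

lemma kerPow_AA (k : ℕ) : kerPow AA k = ⊥ := by
  rw [eq_bot_iff]
  induction k with
  | zero => intro x hx; exact hx
  | succ k ih =>
    intro x hx
    rw [mem_kerPow, pow_succ_apply] at hx
    exact ih (AA_inj hx)

lemma mem_ran_AA (y : L2) : y ∈ ranPow AA 1 ↔ ∀ j, y (0, j) = 0 := by
  rw [mem_ranPow]
  constructor
  · rintro ⟨x, rfl⟩ j
    rw [pow_one]
    exact AA_zero x j
  · intro h
    refine ⟨BU y, ?_⟩
    rw [pow_one]
    ext ⟨i, j⟩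
    cases i with
    | zero => rw [AA_zero, h]
    | succ i => rw [AA_succ, BU_apply]

lemma ran_AA_closed : IsClosed (ranPow AA 1 : Set L2) := by
  have : (ranPow AA 1 : Set L2) = ⋂ j, {x | ev (0, j) x = 0} := by
    ext x
    rw [SetLike.mem_coe, mem_ran_AA]
    simp only [Set.mem_iInter, Set.mem_ofPred_eq]
    exact Iff.rfl
  rw [this]
  exact isClosed_iInter fun j => isClosed_eq (ev (0, j)).continuous continuous_const

lemma spS_AA (p : ℕ) : spS AA p = ranPow AA 1 := by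
  rw [spS, kerPow_AA, sup_bot_eq]

lemma asc_AA : HasAscent AA 0 :=
  ⟨by show kerPow AA (0 + 1) = kerPow AA 0; rw [kerPow_AA, kerPow_AA], fun _ _ => Nat.zero_le _⟩

lemma leftDrazin_AA : LeftDrazin AA := ⟨0, asc_AA, ran_AA_closed⟩

lemma orth_ran_AA : (ranPow AA 1)ᗮ = Row0 := by
  classical
  ext x
  rw [Submodule.mem_orthogonal]
  constructor
  · intro h i j
    have h1 := h (lp.single 2 ((i + 1, j) : ℕ × ℕ) (1 : ℂ)) (by
      rw [mem_ran_AA]
      intro j'
      rw [lp.single_apply_ne]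
      simp)
    rw [lp.inner_single_left] at h1
    simpa using h1
  · intro h u hu
    rw [mem_ran_AA] at hu
    rw [lp.inner_eq_tsum]
    have : ∀ k : ℕ × ℕ, inner ℂ (u k) (x k) = 0 := by
      rintro ⟨i, j⟩
      cases i with
      | zero => rw [hu j, inner_zero_left]
      | succ i => rw [h i j, inner_zero_right]
    exact (tsum_congr this).trans tsum_zero


/-! the operator `B` -/

lemma BB_eq_zero {x : L2} (h : BB x = 0) : x ∈ Row0 := by
  intro i j
  have h1 : BB x (i, j) = 0 := by rw [h]; rfl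
  rw [BB_apply] at h1
  exact (mul_eq_zero.1 h1).resolve_left (wt_ne _)

lemma kerPow_BB : kerPow BB 1 = Row0 := by
  ext x
  rw [mem_kerPow, pow_one]
  constructor
  · exact BB_eq_zero
  · intro h
    ext ⟨i, j⟩
    rw [BB_apply]
    show wt (i, j) * x (i + 1, j) = 0
    rw [h i j, mul_zero]

lemma BB_AA (x : L2) : BB (BB (AA x)) = BB x := by
  ext ⟨i, j⟩
  rw [BB_apply, BB_apply, BB_apply]
  show wt (i, j) * (wt (i + 1, j) * AA x (i + 1 + 1, j)) = wt (i, j) * x (i + 1, j)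
  rw [AA_succ]
  congr 1
  rw [wt, if_neg (by simp), one_mul]

lemma ran_BB_two : ranPow BB (1 + 1) = ranPow BB 1 := by
  apply le_antisymm (ranPow_anti _ (by omega))
  rintro y ⟨x, rfl⟩
  refine ⟨AA x, ?_⟩
  show (BB ^ (1 + 1)) (AA x) = (BB ^ 1) x
  rw [pow_succ_apply, pow_one, BB_AA]

lemma ranPow_BB {p : ℕ} (hp : 1 ≤ p) : ranPow BB p = ranPow BB 1 := ran_stable BB ran_BB_two hp

lemma spT_BB {p : ℕ} (hp : 1 ≤ p) : spT BB p = Row0 := by
  classical
  rw [spT, ranPow_BB hp, kerPow_BB]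
  apply le_antisymm
  · exact Submodule.topologicalClosure_minimal _ inf_le_left Row0_closed
  · intro x hx
    have h1 : HasSum (fun k => lp.single 2 k (x k)) x := lp.hasSum_single (by norm_num) x
    apply (Submodule.isClosed_topologicalClosure (Row0 ⊓ ranPow BB 1)).mem_of_tendsto h1
    refine Filter.Eventually.of_forall fun s => ?_
    apply Submodule.sum_mem
    rintro ⟨i, j⟩ _
    apply Submodule.le_topologicalClosure
    cases i with
    | succ i =>
      rw [hx i j]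
      have : (lp.single 2 ((i + 1, j) : ℕ × ℕ) (0 : ℂ) : L2) = 0 := by
        simp
      rw [this]
      exact Submodule.zero_mem _
    | zero =>
      refine ⟨?_, ?_⟩
      · intro i' j'
        rw [lp.single_apply_ne]
        simp
      · refine ⟨lp.single 2 ((1, j) : ℕ × ℕ) ((wt (0, j))⁻¹ * x (0, j)), ?_⟩
        show (BB ^ 1) _ = _
        rw [pow_one]
        ext ⟨i', j'⟩
        rw [BB_apply]
        show wt (i', j') * _ = _
        by_cases h2 : (i', j') = (0, j)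
        · rw [h2, lp.single_apply_self, lp.single_apply_self, ← mul_assoc,
            mul_inv_cancel₀ (wt_ne _), one_mul]
        · rw [lp.single_apply_ne _ _ _ h2]
          show wt (i', j') * (lp.single 2 ((1, j) : ℕ × ℕ) ((wt (0, j))⁻¹ * x (0, j)) : L2)
            (i' + 1, j') = 0
          rw [lp.single_apply_ne, mul_zero]
          intro h3
          apply h2
          simp only [Prod.mk.injEq] at h3 ⊢
          omega

/-! condition (iii) -/

lemma col_mem {μ : ℂ} (hμ : ‖μ‖ < 1) (j : ℕ) :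
    Memℓp (fun k : ℕ × ℕ => if k.2 = j then μ ^ k.1 else 0) 2 := by
  apply memℓp_gen
  have h2 : (2 : ℝ≥0∞).toReal = 2 := by norm_num
  rw [h2]
  have hinj : Function.Injective (fun i : ℕ => ((i, j) : ℕ × ℕ)) := by
    intro i i' h
    exact (Prod.mk.injEq _ _ _ _ ▸ h).1
  rw [← hinj.summable_iff]
  · have h3 : ((fun k : ℕ × ℕ => ‖(if k.2 = j then μ ^ k.1 else 0 : ℂ)‖ ^ (2 : ℝ)) ∘
        fun i : ℕ => ((i, j) : ℕ × ℕ)) = fun i : ℕ => (‖μ‖ ^ 2) ^ i := by
      ext i
      simp only [Function.comp_apply, if_true, norm_pow]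
      rw [Real.rpow_two, ← pow_mul, ← pow_mul, mul_comm]
    rw [h3]
    apply summable_geometric_of_lt_one (by positivity)
    have := norm_nonneg μ
    nlinarith
  · rintro ⟨i, j'⟩ hk
    have : j' ≠ j := by
      rintro rfl
      exact hk ⟨i, rfl⟩
    show ‖(if j' = j then μ ^ i else 0 : ℂ)‖ ^ (2 : ℝ) = 0
    rw [if_neg this]
    simp

noncomputable def col {μ : ℂ} (hμ : ‖μ‖ < 1) (j : ℕ) : L2 := ⟨_, col_mem hμ j⟩

lemma col_apply {μ : ℂ} (hμ : ‖μ‖ < 1) (j : ℕ) (k : ℕ × ℕ) :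
    col hμ j k = if k.2 = j then μ ^ k.1 else 0 := rfl

lemma linInd_of (v : ℕ → L2) (a : ℕ → ℂ) (ha : ∀ j, a j ≠ 0)
    (hv : ∀ i j, v i (0, j) = if j = i then a j else 0) : LinearIndependent ℂ v := by
  rw [linearIndependent_iff']
  intro s g hg i hi
  have h1 : ev (0, i) (∑ j ∈ s, g j • v j) = 0 := by rw [hg, map_zero]
  rw [map_sum] at h1
  simp_rw [map_smul, ev_apply, hv] at h1
  rw [Finset.sum_eq_single i] at h1
  · rw [if_pos rfl, smul_eq_mul] at h1
    exact (mul_eq_zero.1 h1).resolve_right (ha i)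
  · intro j _ hj
    rw [if_neg (Ne.symm hj), smul_zero]
  · intro h
    exact absurd hi h

lemma sdim_top (U : Submodule ℂ L2) (v : ℕ → L2) (hv : LinearIndependent ℂ v)
    (hvU : ∀ j, v j ∈ U) : sdim U = ⊤ := by
  rw [sdim, Cardinal.toENat_eq_top]
  have h1 : LinearIndependent ℂ (fun j => (⟨v j, hvU j⟩ : U)) :=
    LinearIndependent.of_comp U.subtype hv
  exact h1.aleph0_le_rank

lemma inner_AA (y x : L2) : inner ℂ (AA y) x = inner ℂ y (BU x) := by
  rw [lp.inner_eq_tsum, lp.inner_eq_tsum]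
  have hinj : Function.Injective (fun k : ℕ × ℕ => ((k.1 + 1, k.2) : ℕ × ℕ)) := by
    rintro ⟨i, j⟩ ⟨i', j'⟩ h
    simp only [Prod.mk.injEq] at h ⊢
    omega
  rw [← hinj.tsum_eq]
  · apply tsum_congr
    rintro ⟨i, j⟩
    show inner ℂ (AA y (i + 1, j)) (x (i + 1, j)) = inner ℂ (y (i, j)) (BU x (i, j))
    rw [AA_succ, BU_apply]
  · rintro ⟨i, j⟩ h
    cases i with
    | zero =>
      exfalso
      apply h
      show inner ℂ (AA y (0, j)) (x (0, j)) = 0
      rw [AA_zero, inner_zero_left]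
    | succ i => exact ⟨(i, j), rfl⟩

lemma condIII : CondIII AA BB := by
  refine ⟨1, one_pos, ?_⟩
  intro l hl0 hl1
  have hl : l ≠ 0 := norm_pos_iff.1 hl0
  have hcl : ‖(starRingEnd ℂ) l‖ < 1 := by rwa [RCLike.norm_conj]
  rw [sdim_top _ (fun j => col hcl j), sdim_top _ (fun j => DD (col hl1 j))]
  · apply linInd_of _ (fun j => wt (0, j)) (fun j => wt_ne _)
    intro i j
    rw [DD_apply, col_apply]
    show wt (0, j) * (if j = i then l ^ 0 else 0) = _
    split_ifs <;> simp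
  · intro j
    rw [LinearMap.mem_ker]
    show BB (DD (col hl1 j)) - l • DD (col hl1 j) = 0
    rw [sub_eq_zero]
    ext ⟨i, j'⟩
    rw [BB_apply, DD_apply, lp.coeFn_smul, Pi.smul_apply, DD_apply, col_apply, col_apply,
      smul_eq_mul]
    show wt (i, j') * (wt (i + 1, j') * (if j' = j then l ^ (i + 1) else 0)) =
      l * (wt (i, j') * (if j' = j then l ^ i else 0))
    have h1 : wt (i + 1, j') = 1 := by rw [wt, if_neg (by simp)]
    rw [h1]
    split_ifs
    · ring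
    · simp
  · apply linInd_of _ (fun _ => 1) (fun _ => one_ne_zero)
    intro i j
    rw [col_apply]
    show (if j = i then (starRingEnd ℂ) l ^ 0 else 0) = _
    rw [pow_zero]
  · intro j
    rw [Submodule.mem_orthogonal]
    rintro _ ⟨y, rfl⟩
    show inner ℂ (AA y - l • y) (col hcl j) = 0
    have h1 : BU (col hcl j) = (starRingEnd ℂ) l • col hcl j := by
      ext ⟨i, j'⟩
      rw [BU_apply, lp.coeFn_smul, Pi.smul_apply, col_apply, col_apply, smul_eq_mul]
      show (if j' = j then (starRingEnd ℂ) l ^ (i + 1) else 0) =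
        (starRingEnd ℂ) l * (if j' = j then (starRingEnd ℂ) l ^ i else 0)
      split_ifs
      · ring
      · simp
    rw [inner_sub_left, inner_AA, h1, inner_smul_left, inner_smul_right, sub_self]


/-! admissible operators -/

lemma admissible_CC {p : ℕ} (hp : 1 ≤ p) : Admissible AA BB p CC := by
  classical
  have h1 : spT BB p = (spS AA p)ᗮ := by rw [spT_BB hp, spS_AA, orth_ran_AA]
  refine ⟨⟨(LinearIsometryEquiv.ofEq _ _ h1).toContinuousLinearEquiv, ?_⟩, ?_⟩
  · rintro ⟨t, ht⟩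
    show CC t = t
    rw [spT_BB hp] at ht
    ext ⟨i, j⟩
    rw [CC_apply]
    cases i with
    | zero => rw [if_pos rfl]
    | succ i => rw [if_neg (by simp), ht i j]
  · intro x hx
    rw [spT_BB hp, Submodule.mem_orthogonal] at hx
    ext ⟨i, j⟩
    rw [CC_apply]
    cases i with
    | succ i => rw [if_neg (by simp)]; rfl
    | zero =>
      rw [if_pos rfl]
      have h2 := hx (lp.single 2 ((0, j) : ℕ × ℕ) (1 : ℂ)) (by
        intro i' j'
        rw [lp.single_apply_ne]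
        simp)
      rw [lp.inner_single_left] at h2
      simpa using h2

lemma target_mem : Memℓp (fun k : ℕ × ℕ => if k.1 = 0 then (((1 / 2 : ℝ) ^ k.2 : ℝ) : ℂ) else 0)
    2 := by
  apply memℓp_gen
  have h2 : (2 : ℝ≥0∞).toReal = 2 := by norm_num
  rw [h2]
  have hinj : Function.Injective (fun j : ℕ => ((0, j) : ℕ × ℕ)) := by
    intro i i' h
    exact (Prod.mk.injEq _ _ _ _ ▸ h).2
  rw [← hinj.summable_iff]
  · have h3 : ((fun k : ℕ × ℕ => ‖(if k.1 = 0 then (((1 / 2 : ℝ) ^ k.2 : ℝ) : ℂ) else 0)‖ ^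
        (2 : ℝ)) ∘ fun j : ℕ => ((0, j) : ℕ × ℕ)) = fun j : ℕ => ((1 / 4 : ℝ)) ^ j := by
      ext j
      simp only [Function.comp_apply, if_true, Complex.norm_real]
      rw [Real.norm_eq_abs, abs_of_nonneg (by positivity), Real.rpow_two, ← pow_mul, mul_comm,
        pow_mul]
      norm_num
    rw [h3]
    exact summable_geometric_of_lt_one (by norm_num) (by norm_num)
  · rintro ⟨i, j⟩ hk
    have : i ≠ 0 := by
      rintro rfl
      exact hk ⟨j, rfl⟩
    show ‖(if i = 0 then (((1 / 2 : ℝ) ^ j : ℝ) : ℂ) else 0)‖ ^ (2 : ℝ) = 0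
    rw [if_neg this]
    simp

lemma BB_not_surj : ∃ y : L2, ∀ x, BB x ≠ y := by
  refine ⟨⟨_, target_mem⟩, ?_⟩
  intro x hx
  have h1 : ∀ j : ℕ, (2 : ℝ) ^ j ≤ ‖x‖ := by
    intro j
    have h2 : BB x (0, j) = (((1 / 2 : ℝ) ^ j : ℝ) : ℂ) := by
      rw [hx]
      rfl
    rw [BB_apply] at h2
    have h3 : wt (0, j) = (((1 / 4 : ℝ) ^ j : ℝ) : ℂ) := rfl
    rw [h3] at h2
    have h4 : x (1, j) = (((2 : ℝ) ^ j : ℝ) : ℂ) := by
      have h5 : (((1 / 4 : ℝ) ^ j : ℝ) : ℂ) ≠ 0 := by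
        rw [Complex.ofReal_ne_zero]
        positivity
      apply mul_left_cancel₀ h5
      rw [← Complex.ofReal_mul, ← mul_pow]
      norm_num at h2 ⊢
      exact h2
    have h5 := lp.norm_apply_le_norm (by norm_num : (2 : ℝ≥0∞) ≠ 0) x ((1, j) : ℕ × ℕ)
    rw [h4, Complex.norm_real, Real.norm_eq_abs, abs_of_nonneg (by positivity)] at h5
    exact h5
  obtain ⟨j, hj⟩ := pow_unbounded_of_one_lt ‖x‖ (by norm_num : (1 : ℝ) < 2)
  exact absurd (h1 j) (not_le.2 hj)

lemma not_drazin {p : ℕ} (hp : 1 ≤ p) {C : L2 →L[ℂ] L2} (hC : Admissible AA BB p C) :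
    ¬ DrazinInvertible (MC AA BB C) := by
  rintro ⟨-, k, hk⟩
  obtain ⟨⟨J, hJ⟩, -⟩ := hC
  have inj : ∀ z : L2 × L2, MC AA BB C z = 0 → z = 0 := by
    rintro ⟨h, x⟩ hz
    rw [MC_apply] at hz
    have h1 : AA h + C x = 0 := congrArg Prod.fst hz
    have h2 : BB x = 0 := congrArg Prod.snd hz
    have hxT : x ∈ spT BB p := by
      rw [spT_BB hp]
      exact BB_eq_zero h2
    have h3 : C x = J ⟨x, hxT⟩ := hJ ⟨x, hxT⟩
    have h4 : (J ⟨x, hxT⟩ : L2) ∈ spS AA p := by
      have h5 : (J ⟨x, hxT⟩ : L2) = -(AA h) := by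
        rw [← h3]
        exact (neg_eq_of_add_eq_zero_right h1).symm
      rw [h5, spS_AA]
      refine Submodule.neg_mem _ ⟨h, ?_⟩
      show (AA ^ 1) h = AA h
      rw [pow_one]
    have h5 : (J ⟨x, hxT⟩ : L2) = 0 :=
      inner_self_eq_zero.1 (Submodule.inner_right_of_mem_orthogonal h4 (J ⟨x, hxT⟩).2)
    have h6 : x = 0 := by
      have h7 : J ⟨x, hxT⟩ = 0 := Subtype.ext h5
      have h8 := (map_eq_zero_iff J J.injective).1 h7
      exact congrArg Subtype.val h8
    rw [h6, map_zero, add_zero] at h1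
    rw [h6, AA_inj h1]
    rfl
  have injk : ∀ (k : ℕ) (z : L2 × L2), (MC AA BB C ^ k) z = 0 → z = 0 := by
    intro k
    induction k with
    | zero => intro z hz; exact hz
    | succ k ih =>
      intro z hz
      rw [pow_succ_apply] at hz
      exact ih z (inj _ hz)
  obtain ⟨y, hy⟩ := BB_not_surj
  have h1 : (MC AA BB C ^ k) (0, y) ∈ ranPow (MC AA BB C) (k + 1) := by
    have h2 : ranPow (MC AA BB C) (k + 1) = ranPow (MC AA BB C) k := hk.1
    rw [h2]
    exact ⟨(0, y), rfl⟩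
  obtain ⟨w, hw⟩ := h1
  change (MC AA BB C ^ (k + 1)) w = _ at hw
  rw [pow_succ_apply'] at hw
  have h3 : MC AA BB C w - (0, y) = 0 := injk k _ (by rw [map_sub, hw, sub_self])
  have h4 : MC AA BB C w = (0, y) := sub_eq_zero.1 h3
  exact hy w.2 (congrArg Prod.snd h4)

/-- **Q1 is false.** -/
theorem result : ∃ A B : L2 →L[ℂ] L2, LeftDrazin A ∧ (∃ b, HasDescent B b) ∧ CondIII A B ∧
    (∃ p, GoodP A B p) ∧ ∀ p, GoodP A B p → CondE A B p ∧ (∃ C, Admissible A B p C) ∧
      ∀ C, Admissible A B p C → ¬ DrazinInvertible (MC A B C) := by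
  obtain ⟨b, hb, hdb⟩ := hasDescent_of BB ran_BB_two
  refine ⟨AA, BB, leftDrazin_AA, ⟨b, hdb⟩, condIII, ⟨1, le_rfl, ⟨0, by norm_num, asc_AA⟩, b, hb,
    hdb⟩, ?_⟩
  rintro p ⟨hp, -⟩
  refine ⟨⟨?_, ?_⟩, ⟨CC, admissible_CC hp⟩, fun C hC => not_drazin hp hC⟩
  · rw [spS_AA]
    exact ran_AA_closed
  · rw [spT_BB hp, spS_AA, orth_ran_AA]

end Pool.Agent.Results.MP_632fda_an.Q1False
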