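import Mathlib
import Pool.Agent.R579.DrazinDefs

set_option autoImplicit false

namespace Pool.Agent.Results.MP_632fda_an.Q2True

open Pool.Agent.R579.Drazin Submodule

variable {H K : Type} [NormedAddCommGroup H] [InnerProductSpace ℂ H] [CompleteSpace H]
  [NormedAddCommGroup K] [InnerProductSpace ℂ K] [CompleteSpace K]

section core

lemma mem_ker_one {E : Type} [NormedAddCommGroup E] [NormedSpace ℂ E] (T : E →L[ℂ] E) {x : E} :
    x ∈ kerPow T 1 ↔ T x = 0 := by
  rw [mem_kerPow, pow_one]

variable (A : H →L[ℂ] H) (B : K →L[ℂ] K) (C : K →L[ℂ] H) (p : ℕ)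

lemma MC_pow_snd (k : ℕ) (z : H × K) : ((MC A B C ^ k) z).2 = (B ^ k) z.2 := by
  induction k with
  | zero => rfl
  | succ k ih => rw [pow_succ_apply, pow_succ_apply, MC_apply, ih]

lemma MC_pow_left (k : ℕ) (n : H) : (MC A B C ^ k) (n, 0) = ((A ^ k) n, 0) := by
  induction k with
  | zero => rfl
  | succ k ih => rw [pow_succ_apply, pow_succ_apply, ih, MC_apply]; simp

variable {A B C p}

/-- main lemma -/
lemma drazin_of (hA : kerPow A (p + 1) = kerPow A p)
    (hB : ranPow B (p + 1) = ranPow B p)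
    (hSclosed : IsClosed (spS A p : Set H)) (hT : spT B p = kerPow B 1 ⊓ ranPow B p)
    (hC : Admissible A B p C) : DrazinInvertible (MC A B C) := by
  obtain ⟨⟨J, hJ⟩, hC0⟩ := hC
  haveI hSc : CompleteSpace (spS A p) := hSclosed.completeSpace_coe
  haveI hTc : CompleteSpace (spT B p) :=
    (Submodule.isClosed_topologicalClosure _).completeSpace_coe
  -- injectivity modulo the kernel
  have inj : ∀ h : H, ∀ x ∈ ranPow B p, (MC A B C (h, x)).2 = 0 →
      (MC A B C (h, x)).1 ∈ kerPow A p → h ∈ kerPow A p ∧ x = 0 := by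
    intro h x hx h1 h2
    rw [MC_apply] at h1 h2
    have hxT : x ∈ spT B p := by
      rw [hT]
      exact ⟨(mem_ker_one B).2 h1, hx⟩
    have h3 : C x = J ⟨x, hxT⟩ := hJ ⟨x, hxT⟩
    have h4 : (J ⟨x, hxT⟩ : H) ∈ spS A p := by
      have h5 : (J ⟨x, hxT⟩ : H) = -(A h) + (A h + C x) := by rw [h3]; abel
      rw [h5]
      refine Submodule.add_mem_sup (Submodule.neg_mem _ ⟨h, ?_⟩) h2
      show (A ^ 1) h = A h
      rw [pow_one]
    have h5 : (J ⟨x, hxT⟩ : H) = 0 := by
      have h6 := (J ⟨x, hxT⟩).2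
      have h7 := Submodule.inner_right_of_mem_orthogonal h4 h6
      exact inner_self_eq_zero.1 h7
    have h6 : x = 0 := by
      have h7 : J ⟨x, hxT⟩ = 0 := Subtype.ext h5
      have h8 := (map_eq_zero_iff J J.injective).1 h7
      exact congrArg Subtype.val h8
    refine ⟨?_, h6⟩
    have h7 : A h ∈ kerPow A p := by
      have h8 : A h + C x = A h := by rw [h6, map_zero, add_zero]
      have h9 : A h + C x ∈ kerPow A p := h2
      rw [h8] at h9
      exact h9
    rw [← hA, mem_kerPow, pow_succ_apply']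
    exact h7
  -- surjectivity modulo the kernel
  have surj : ∀ h : H, ∀ x ∈ ranPow B p, ∃ h' : H, ∃ x' ∈ ranPow B p, ∃ n ∈ kerPow A p,
      ((h, x) : H × K) = MC A B C (h', x') + (n, 0) := by
    intro h x hx
    obtain ⟨v, hv, hvx⟩ : ∃ v ∈ ranPow B p, B v = x := by
      rw [← hB] at hx
      obtain ⟨y, rfl⟩ := hx
      exact ⟨(B ^ p) y, ⟨y, rfl⟩, (pow_succ_apply B p y).symm⟩
    obtain ⟨t0, ht0, w, hw, hvtw⟩ := (spT B p).exists_add_mem_mem_orthogonal v
    obtain ⟨s, hs, r, hr, hsr⟩ := (spS A p).exists_add_mem_mem_orthogonal h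
    obtain ⟨a, ha, n, hn, han⟩ := Submodule.mem_sup.1 hs
    obtain ⟨h', hh'⟩ := ha
    obtain ⟨t, ht⟩ := J.surjective ⟨r, hr⟩
    have ht0' := ht0
    rw [hT] at ht0'
    have htmem : (t : K) ∈ kerPow B 1 ⊓ ranPow B p := by rw [← hT]; exact t.2
    have hwV : w ∈ ranPow B p := by
      have : w = v - t0 := by rw [hvtw]; abel
      rw [this]
      exact Submodule.sub_mem _ hv ht0'.2
    refine ⟨h', w + t, Submodule.add_mem _ hwV htmem.2, n, hn, ?_⟩
    rw [MC_apply]
    have hBt0 : B t0 = 0 := (mem_ker_one B).1 ht0'.1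
    have hBt : B (t : K) = 0 := (mem_ker_one B).1 htmem.1
    have hBw : B w = x := by
      rw [← hvx, hvtw, map_add, hBt0, zero_add]
    have hCt : C (t : K) = r := by
      rw [hJ t, ht]
    have hCw : C w = 0 := hC0 w hw
    have hAh : A h' = a := by
      rw [← hh']
      show A h' = (A ^ 1) h'
      rw [pow_one]
    ext
    · show h = (A h' + C (w + t)) + n
      rw [map_add, hCw, hCt, hAh, hsr, ← han]
      abel
    · show x = B (w + t) + 0
      rw [map_add, hBw, hBt]
      abel
  constructor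
  · -- ascent
    have inj' : ∀ k : ℕ, ∀ z : H × K, z.2 ∈ ranPow B p → (MC A B C ^ k) z = 0 →
        z.1 ∈ kerPow A p ∧ z.2 = 0 := by
      intro k
      induction k with
      | zero =>
        intro z _ hz
        have : z = 0 := hz
        rw [this]
        exact ⟨Submodule.zero_mem _, rfl⟩
      | succ k ih =>
        intro z hz1 hz
        rw [pow_succ_apply'] at hz
        have hmem : (MC A B C z).2 ∈ ranPow B p := by
          rw [MC_apply]
          obtain ⟨y, hy⟩ := hz1
          refine ⟨B y, ?_⟩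
          show (B ^ p) (B y) = B z.2
          rw [← pow_succ_apply', pow_succ_apply]
          congr 1
        obtain ⟨h1, h2⟩ := ih _ hmem hz
        exact inj z.1 z.2 hz1 h2 h1
    have h1 : kerPow (MC A B C) (2 * p + 1) = kerPow (MC A B C) (2 * p) := by
      apply le_antisymm _ (kerPow_mono _ (by omega))
      intro z hz
      rw [mem_kerPow] at hz ⊢
      have h2 : (MC A B C ^ (p + 1)) ((MC A B C ^ p) z) = 0 := by
        rw [← pow_add_apply, show p + 1 + p = 2 * p + 1 by ring]
        exact hz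
      obtain ⟨h3, h4⟩ := inj' _ _ (by rw [MC_pow_snd]; exact ⟨z.2, rfl⟩) h2
      have h5 : (MC A B C ^ p) z = (((MC A B C ^ p) z).1, 0) := Prod.ext rfl h4
      rw [two_mul, pow_add_apply, h5, MC_pow_left]
      rw [mem_kerPow] at h3
      rw [h3]
      rfl
    obtain ⟨j, -, hj⟩ := hasAscent_of _ h1
    exact ⟨j, hj⟩
  · -- descent
    have surj' : ∀ k : ℕ, ∀ z : H × K, z.2 ∈ ranPow B p →
        ∃ y : H × K, y.2 ∈ ranPow B p ∧ (MC A B C ^ p) z = (MC A B C ^ (p + k)) y := by
      intro k
      induction k with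
      | zero => intro z hz; exact ⟨z, hz, rfl⟩
      | succ k ih =>
        intro z hz
        obtain ⟨h', x', hx', n, hn, hzz⟩ := surj z.1 z.2 hz
        have h1 : (MC A B C ^ p) z = (MC A B C ^ p) (MC A B C (h', x')) := by
          have h2 : z = MC A B C (h', x') + (n, 0) := hzz
          conv_lhs => rw [h2]
          rw [map_add, MC_pow_left]
          rw [mem_kerPow] at hn
          rw [hn]
          exact add_zero _
        obtain ⟨y, hy, hy'⟩ := ih (h', x') hx'
        refine ⟨y, hy, ?_⟩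
        rw [h1, ← pow_succ_apply', pow_succ_apply, hy', ← pow_succ_apply, ← add_assoc]
    have h1 : ranPow (MC A B C) (2 * p + 1) = ranPow (MC A B C) (2 * p) := by
      apply le_antisymm (ranPow_anti _ (by omega))
      rintro z ⟨y, rfl⟩
      obtain ⟨w, -, hw⟩ := surj' (p + 1) ((MC A B C ^ p) y) (by
        rw [MC_pow_snd]; exact ⟨y.2, rfl⟩)
      refine ⟨w, ?_⟩
      show (MC A B C ^ (2 * p + 1)) w = (MC A B C ^ (2 * p)) y
      rw [show 2 * p + 1 = p + (p + 1) by ring, ← hw, two_mul, pow_add_apply]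
    obtain ⟨j, -, hj⟩ := hasDescent_of _ h1
    exact ⟨j, hj⟩

end core

/-- **Q2 is true**; neither condition (iii) nor the dimension part of (E) is needed. -/
theorem result (H K : Type) [NormedAddCommGroup H] [InnerProductSpace ℂ H] [CompleteSpace H]
    [NormedAddCommGroup K] [InnerProductSpace ℂ K] [CompleteSpace K]
    (A : H →L[ℂ] H) (B : K →L[ℂ] K) (p : ℕ) (hp : GoodP A B p) (hB : RightDrazin B)
    (hS : IsClosed (spS A p : Set H)) (C : K →L[ℂ] H) (hC : Admissible A B p C) :
    DrazinInvertible (MC A B C) := by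
  obtain ⟨-, ⟨a, ha, hAa⟩, b, hb, hBb⟩ := hp
  have hA1 : kerPow A (a + 1) = kerPow A a := hAa.1
  have hB1 : ranPow B (b + 1) = ranPow B b := hBb.1
  have hA2 : kerPow A (p + 1) = kerPow A p :=
    (ker_stable A hA1 (by omega)).trans (ker_stable A hA1 ha).symm
  have hB2 : ranPow B p = ranPow B b := ran_stable B hB1 hb
  have hB3 : ranPow B (p + 1) = ranPow B p :=
    (ran_stable B hB1 (by omega)).trans hB2.symm
  obtain ⟨b', hb', hcl⟩ := hB
  have hbb : b' = b := IsLeast.unique hb' hBb
  subst hbb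
  refine drazin_of hA2 hB3 hS ?_ hC
  apply le_antisymm _ (Submodule.le_topologicalClosure _)
  apply Submodule.topologicalClosure_minimal _ le_rfl
  have h1 : IsClosed (ranPow B p : Set K) := by rw [hB2]; exact hcl
  have h2 : IsClosed (kerPow B 1 : Set K) := (B ^ 1).isClosed_ker
  exact h2.inter h1

end Pool.Agent.Results.MP_632fda_an.Q2True
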